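import Pool.Agent.Helper53.MF.Main

set_option autoImplicit false

namespace Pool.Agent.Results.MP_743d72_nt.AllDegrees

/-- The Hausdorff dimension of the set of multiplicatively approximable numbers, for every degree
and every exponent. -/
theorem result : ∀ n : ℕ, 1 ≤ n → ∀ τ : ℝ, 1 < τ →
    dimH {ξ : ℝ | {P : Polynomial ℤ | P.natDegree ≤ n ∧
        ((∏ i ∈ Finset.Icc 1 n, max (1 : ℤ) |P.coeff i| : ℤ) : ℝ) ^ (2 * τ - 1)
          * |(Polynomial.aeval ξ P : ℝ)| < 1}.Infinite}
      = ENNReal.ofReal (1 / τ) :=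
  fun n hn τ hτ => Pool.Agent.Helper53.MF.dimH_K n hn τ hτ

end Pool.Agent.Results.MP_743d72_nt.AllDegrees
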